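import Mathlib

/-!
# MP_f85992_lc: the residual-type step for unequal-data-demand PIR codes is false

Doubling the `[7,4]` Hamming code (columns `(v, 0)` and `(v, 1)`, `v` a column of the Hamming
generator matrix) gives a binary `(7,5,5,5,5)`-PIR code of length `14`, while there is no binary
`(3,3,3,3)`-PIR code of length `14 - 7 = 7`.
-/

namespace Pool.Agent.Results.MP_f85992_lc.DoubledHamming

open Matrix

/-- `I` is a recovery set for the `j`-th data symbol of the encoder `a ↦ a ᵥ* G`: the restriction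
of the codeword to `I` uniquely determines `a j`. -/
def IsRecovery {F : Type} [Field F] {k n : ℕ} (G : Matrix (Fin k) (Fin n) F) (j : Fin k)
    (I : Finset (Fin n)) : Prop :=
  ∀ a b : Fin k → F, (∀ i ∈ I, (a ᵥ* G) i = (b ᵥ* G) i) → a j = b j

/-- `G` is a `(t 0, …, t (k-1))`-PIR code (encoder): the encoder is one-to-one and the `j`-th data
symbol has `t j` pairwise disjoint recovery sets. -/
def IsPIR {F : Type} [Field F] {k n : ℕ} (t : Fin k → ℕ) (G : Matrix (Fin k) (Fin n) F) : Prop :=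
  Function.Injective (fun a : Fin k → F => a ᵥ* G) ∧
  ∀ j, ∃ S : Fin (t j) → Finset (Fin n),
    (∀ x y, x ≠ y → Disjoint (S x) (S y)) ∧ ∀ x, IsRecovery G j (S x)

/-- `N_q(t)`: the smallest length of a linear `t`-PIR code over `F`. -/
noncomputable def minLen (F : Type) [Field F] {k : ℕ} (t : Fin k → ℕ) : ℕ :=
  sInf {n | ∃ G : Matrix (Fin k) (Fin n) F, IsPIR t G}

/-- The statement of Q1 (`k = m + 1 ≥ 2`, `q = Fintype.card F`,
`⌈t / q⌉ = (t + q - 1) / q` in natural numbers). -/
def Q1 : Prop :=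
  ∀ (F : Type) [Field F] [Fintype F] (m : ℕ) (t : Fin (m + 1) → ℕ), 1 ≤ m → Antitone t →
    (∀ j, 1 ≤ t j) → ∀ n, (∃ G : Matrix (Fin (m + 1)) (Fin n) F, IsPIR t G) →
      ∃ G' : Matrix (Fin m) (Fin (n - t 0)) F,
        IsPIR (fun j => (t j.succ + Fintype.card F - 1) / Fintype.card F) G'

/-! ### The finite search -/

/-- parity of the number of common one bits of `a` and `x` (both `< 16`) -/
def dot (a x : ℕ) : Bool :=
  (((a &&& x).testBit 0) ^^ ((a &&& x).testBit 1)) ^^
    (((a &&& x).testBit 2) ^^ ((a &&& x).testBit 3))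

def pack : (ℕ → ℕ) → ℕ → ℕ
  | _, 0 => 0
  | w, n + 1 => w 0 + 16 * pack (fun a => w (a + 1)) n

def M (x : ℕ) : ℕ := pack (fun a => (dot (a + 1) x).toNat) 15

def Mt : ℕ → ℕ
  | 0 => 0
  | 1 => 72340172838076673
  | 2 => 76562361914229008
  | 3 => 4785147619639313
  | 4 => 76860260845948928
  | 5 => 4522295621062913
  | 6 => 300235393929488
  | 7 => 72075259255197713
  | 8 => 76861433622560768
  | 9 => 4521260818170113
  | 10 => 299071743983888
  | 11 => 72076286005149713
  | 12 => 1172812402688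
  | 13 => 72339138003603713
  | 14 => 76561198228771088
  | 15 => 4786174400925713
  | _ => 0

def msk : ℕ → ℕ
  | 0 => 0
  | 1 => 43690
  | 2 => 52428
  | 3 => 26214
  | 4 => 61680
  | 5 => 23130
  | 6 => 15420
  | 7 => 38550
  | 8 => 65280
  | 9 => 21930
  | 10 => 13260
  | 11 => 39270
  | 12 => 4080
  | 13 => 42330
  | 14 => 49980
  | 15 => 27030
  | _ => 0

def chk (thr : ℕ) : ℕ → ℕ → Bool
  | 0, _ => true
  | n + 1, c => Nat.ble thr (c % 16) && chk thr n (c / 16)

/-- can the positions (columns) in the list be distributed to three classes so that each class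
covers the set `J` of messages? -/
def ok3 (J : ℕ) : List ℕ → ℕ → ℕ → ℕ → Bool
  | [], a, b, c => Nat.beq (a &&& J) J && Nat.beq (b &&& J) J && Nat.beq (c &&& J) J
  | x :: L, a, b, c => ok3 J L (a ||| msk x) b c || ok3 J L a (b ||| msk x) c ||
      ok3 J L a b (c ||| msk x)

def leaf (L : List ℕ) : Bool :=
  !(ok3 43690 L 0 0 0 && (ok3 52428 L 0 0 0 && (ok3 61680 L 0 0 0 && ok3 65280 L 0 0 0)))

/-- `f x` holds for all `x ≤ v` -/
def allTo (f : ℕ → Bool) : ℕ → Bool
  | 0 => f 0
  | w + 1 => f (w + 1) && allTo f w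

theorem allTo_spec (f : ℕ → Bool) : ∀ v, allTo f v = true → ∀ x ≤ v, f x = true := by
  intro v
  induction v with
  | zero =>
    intro h x hx
    obtain rfl : x = 0 := by omega
    exact h
  | succ v ih =>
    intro h x hx
    simp only [allTo, Bool.and_eq_true] at h
    rcases Nat.lt_or_ge v x with hv | hv
    · obtain rfl : x = v + 1 := by omega
      exact h.1
    · exact ih h.2 x hv

/-- search through all multisets of columns; `r` columns `≤ v` are still to be chosen, `cnt`
contains the (packed) weights of the messages on the list `L` of chosen columns -/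
def go : ℕ → ℕ → ℕ → List ℕ → Bool
  | 0, _, cnt, L => !chk 3 15 cnt || leaf L
  | r + 1, v, cnt, L =>
      (Nat.ble (r + 1) 2 && !chk (3 - (r + 1)) 15 cnt) ||
        allTo (fun x => go r x (cnt + Mt x) (x :: L)) v

set_option maxRecDepth 100000 in
theorem go_true : go 7 15 0 [] = true := by decide +kernel

theorem Mt_eq : ∀ x : Fin 16, Mt x = M x := by decide +kernel

theorem pack_add (w v : ℕ → ℕ) (n : ℕ) : pack (fun a => w a + v a) n = pack w n + pack v n := by
  induction n generalizing w v with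
  | zero => rfl
  | succ n ih =>
    simp only [pack]
    rw [ih (fun a => w (a + 1)) (fun a => v (a + 1))]
    ring

theorem chk_sound (thr : ℕ) (n : ℕ) (w : ℕ → ℕ) (h16 : ∀ a < n, w a < 16)
    (h : ∀ a < n, thr ≤ w a) : chk thr n (pack w n) = true := by
  induction n generalizing w with
  | zero => rfl
  | succ n ih =>
    have h0 := h16 0 (by omega)
    have h1 := h 0 (by omega)
    have e1 : pack w (n + 1) % 16 = w 0 := by
      simp only [pack]; omega
    have e2 : pack w (n + 1) / 16 = pack (fun a => w (a + 1)) n := by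
      simp only [pack]; omega
    simp only [chk, e1, e2, Bool.and_eq_true]
    refine ⟨by simpa [Nat.ble_eq] using h1, ?_⟩
    exact ih _ (fun a ha => h16 (a + 1) (by omega)) (fun a ha => h (a + 1) (by omega))

/-- weight of the message `a + 1` on the list of columns -/
def wt (L : List ℕ) (a : ℕ) : ℕ := L.countP (fun x => dot (a + 1) x)

theorem pack_wt_cons (x : ℕ) (L : List ℕ) : pack (wt (x :: L)) 15 = pack (wt L) 15 + M x := by
  rw [M, ← pack_add]
  congr 1
  funext a
  simp only [wt, List.countP_cons]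
  cases dot (a + 1) x <;> simp

theorem wt_le (L : List ℕ) (a : ℕ) : wt L a ≤ L.length := List.countP_le_length

theorem go_sound : ∀ (r v : ℕ) (L : List ℕ), L.length + r = 7 → v < 16 →
    go r v (pack (wt L) 15) L = true →
    ∀ T : List ℕ, T.length = r → T.Pairwise (fun x y => y ≤ x) → (∀ x ∈ T, x ≤ v) →
      (∀ a < 15, 3 ≤ wt (T.reverse ++ L) a) → leaf (T.reverse ++ L) = true := by
  intro r
  induction r with
  | zero =>
    intro v L hL _ hgo T hT _ _ hw
    have : T = [] := List.length_eq_zero_iff.mp hT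
    subst this
    simp only [List.reverse_nil, List.nil_append] at hw ⊢
    have hc : chk 3 15 (pack (wt L) 15) = true :=
      chk_sound 3 15 _ (fun a _ => lt_of_le_of_lt (wt_le L a) (by omega)) hw
    simpa [go, hc] using hgo
  | succ r ih =>
    intro v L hL hv hgo T hT hs hr hw
    obtain ⟨x, T', rfl⟩ : ∃ x T', T = x :: T' := by
      cases T with
      | nil => simp at hT
      | cons x T' => exact ⟨x, T', rfl⟩
    have hlen : T'.length = r := by simpa using hT
    have hc : chk (3 - (r + 1)) 15 (pack (wt L) 15) = true := by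
      apply chk_sound
      · intro a _
        exact lt_of_le_of_lt (wt_le L a) (by omega)
      · intro a ha
        have h3 := hw a ha
        have h4 : wt ((x :: T').reverse ++ L) a = wt (x :: T').reverse a + wt L a := by
          simp only [wt, List.countP_append]
        have h5 : wt (x :: T').reverse a ≤ r + 1 := by
          refine le_trans (wt_le _ a) ?_
          simp [hlen]
        omega
    have hx := hr x (by simp)
    rw [go, hc] at hgo
    simp only [Bool.not_true, Bool.and_false, Bool.false_or] at hgo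
    have h6 := allTo_spec _ v hgo x hx
    have h8 : pack (wt L) 15 + Mt x = pack (wt (x :: L)) 15 := by
      rw [pack_wt_cons]
      have := Mt_eq ⟨x, by omega⟩
      simp only at this
      rw [this]
    simp only [h8] at h6
    have h9 := ih x (x :: L) (by simp; omega) (by omega) h6 T' hlen (List.pairwise_cons.mp hs).2
      (fun y hy => (List.pairwise_cons.mp hs).1 y hy)
      (fun a ha => by
        have := hw a ha
        simpa [List.reverse_cons, List.append_assoc] using this)
    simpa [List.reverse_cons, List.append_assoc] using h9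

/-! ### distribution of the positions to classes -/

theorem fin3 : ∀ κ : Fin 3, κ = 0 ∨ κ = 1 ∨ κ = 2 := by decide

def accum : List (ℕ × Fin 3) → Fin 3 → ℕ → ℕ
  | [], _, z => z
  | p :: P, κ, z => accum P κ (if p.2 = κ then z ||| msk p.1 else z)

theorem ok3_sound (J : ℕ) : ∀ (P : List (ℕ × Fin 3)) (a b c : ℕ), accum P 0 a &&& J = J →
    accum P 1 b &&& J = J → accum P 2 c &&& J = J → ok3 J (P.map Prod.fst) a b c = true := by
  intro P
  induction P with
  | nil =>
    intro a b c h0 h1 h2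
    simp only [accum] at h0 h1 h2
    simp [ok3, h0, h1, h2]
  | cons p P ih =>
    intro a b c h0 h1 h2
    obtain ⟨x, κ⟩ := p
    simp only [accum] at h0 h1 h2
    simp only [List.map_cons, ok3, Bool.or_eq_true]
    rcases fin3 κ with rfl | rfl | rfl
    · left; left
      exact ih _ _ _ (by simpa using h0) (by simpa using h1) (by simpa using h2)
    · left; right
      exact ih _ _ _ (by simpa using h0) (by simpa using h1) (by simpa using h2)
    · right
      exact ih _ _ _ (by simpa using h0) (by simpa using h1) (by simpa using h2)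

theorem accum_testBit (κ : Fin 3) (a : ℕ) : ∀ (P : List (ℕ × Fin 3)) (z : ℕ),
    (z.testBit a = true ∨ ∃ p ∈ P, p.2 = κ ∧ (msk p.1).testBit a = true) →
      (accum P κ z).testBit a = true := by
  intro P
  induction P with
  | nil =>
    intro z h
    rcases h with h | ⟨p, hp, _⟩
    · simpa [accum] using h
    · simp at hp
  | cons p P ih =>
    intro z h
    simp only [accum]
    apply ih
    rcases h with h | ⟨q, hq, hq2, hq3⟩
    · left
      split
      · simp [Nat.testBit_or, h]
      · exact h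
    · rcases List.mem_cons.mp hq with rfl | hq
      · left
        simp [hq2, Nat.testBit_or, hq3]
      · right
        exact ⟨q, hq, hq2, hq3⟩

theorem msk_dot : ∀ x a : Fin 16, (msk x).testBit a = dot a x := by decide +kernel

/-- mask of all messages `a < 16` with `a_j = 1` -/
def Jm : Fin 4 → ℕ := ![43690, 52428, 61680, 65280]

theorem Jm_spec : ∀ j : Fin 4, ∀ a : Fin 16, (Jm j).testBit a = (a : ℕ).testBit j := by
  decide +kernel

theorem Jm_lt : ∀ j : Fin 4, Jm j < 2 ^ 16 := by decide +kernel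

theorem cover_mask (j : Fin 4) (z : ℕ)
    (h : ∀ a : Fin 16, (a : ℕ).testBit j = true → z.testBit a = true) : z &&& Jm j = Jm j := by
  apply Nat.eq_of_testBit_eq
  intro i
  rw [Nat.testBit_and]
  by_cases hi : i < 16
  · have h1 := Jm_spec j ⟨i, hi⟩
    simp only at h1
    rw [h1]
    cases hb : i.testBit (j : ℕ)
    · simp
    · simp [h ⟨i, hi⟩ hb]
  · have : (Jm j).testBit i = false :=
      Nat.testBit_lt_two_pow (lt_of_lt_of_le (Jm_lt j) (Nat.pow_le_pow_right (by norm_num) (by omega)))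
    simp [this]

/-! ### From the matrix to the search -/

def code (g : Fin 4 → ZMod 2) : ℕ :=
  (if g 0 = 1 then 1 else 0) + (if g 1 = 1 then 2 else 0) + (if g 2 = 1 then 4 else 0) +
    (if g 3 = 1 then 8 else 0)

def av (a : ℕ) : Fin 4 → ZMod 2 := fun j => if a.testBit j then 1 else 0

theorem code_lt (g : Fin 4 → ZMod 2) : code g < 16 := by
  unfold code
  split_ifs <;> norm_num

theorem dot_code : ∀ g : Fin 4 → ZMod 2, ∀ a : Fin 16,
    (∑ j, av a j * g j) = if dot a (code g) then 1 else 0 := by decide +kernel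

theorem exists_bit : ∀ a : Fin 15, ∃ j : Fin 4, ((a : ℕ) + 1).testBit j = true := by
  decide +kernel

theorem hits {G : Matrix (Fin 4) (Fin 7) (ZMod 2)} {j : Fin 4} {I : Finset (Fin 7)}
    (h : IsRecovery G j I) (a : Fin 16) (ha : (a : ℕ).testBit j = true) :
    ∃ i ∈ I, dot a (code (fun r => G r i)) = true := by
  by_contra hcon
  push Not at hcon
  have h1 := h (av a) 0 (fun i hi => by
    have h2 := hcon i hi
    have h3 := dot_code (fun r => G r i) a
    simp only [Matrix.vecMul, dotProduct, Pi.zero_apply, zero_mul, Finset.sum_const_zero]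
    rw [h3, if_neg (by simpa using h2)])
  simp [av, ha] at h1

theorem noCode7 (G : Matrix (Fin 4) (Fin 7) (ZMod 2)) (hG : IsPIR ![3, 3, 3, 3] G) : False := by
  have hS : ∀ j : Fin 4, ∃ S : Fin 3 → Finset (Fin 7),
      (∀ x y, x ≠ y → Disjoint (S x) (S y)) ∧ ∀ x, IsRecovery G j (S x) := by
    intro j
    have := hG.2 j
    fin_cases j <;> exact this
  choose S hdis hrec using hS
  let c : Fin 7 → ℕ := fun i => code (fun r => G r i)
  -- weights
  have hw : ∀ a : Fin 15, 3 ≤ (Finset.univ.filter (fun i => dot ((a : ℕ) + 1) (c i) = true)).card := by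
    intro a
    obtain ⟨j, hj⟩ := exists_bit a
    have h1 : ∀ κ : Fin 3, ∃ i ∈ S j κ, dot ((a : ℕ) + 1) (c i) = true := fun κ =>
      hits (hrec j κ) ⟨(a : ℕ) + 1, by omega⟩ hj
    choose φ hφ hφ2 using h1
    have hinj : Function.Injective φ := by
      intro x y hxy
      by_contra hne
      have := Finset.disjoint_left.mp (hdis j x y hne) (hφ x)
      rw [hxy] at this
      exact this (hφ y)
    have h2 : (Finset.univ.image φ).card = 3 := by
      rw [Finset.card_image_of_injective _ hinj]; rfl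
    rw [← h2]
    apply Finset.card_le_card
    intro i hi
    obtain ⟨κ, _, rfl⟩ := Finset.mem_image.mp hi
    simp [hφ2 κ]
  -- sort the positions
  let idx : List (Fin 7) := (List.finRange 7).mergeSort (fun i i' => decide (c i' ≤ c i))
  have hperm : idx.Perm (List.finRange 7) := List.mergeSort_perm _ _
  have hsorted : (idx.map c).Pairwise (fun x y => y ≤ x) := by
    have := List.pairwise_mergeSort (le := fun i i' => decide (c i' ≤ c i))
      (fun a b c' h1 h2 => by
        simp only [decide_eq_true_eq] at h1 h2 ⊢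
        exact le_trans h2 h1)
      (fun a b => by
        simp only [Bool.or_eq_true, decide_eq_true_eq]
        exact le_total _ _) (List.finRange 7)
    rw [List.pairwise_map]
    exact this.imp (fun h => by simpa using h)
  have hlen : (idx.map c).length = 7 := by
    rw [List.length_map, hperm.length_eq]; simp
  have hlt : ∀ x ∈ idx.map c, x ≤ 15 := by
    intro x hx
    obtain ⟨i, _, rfl⟩ := List.mem_map.mp hx
    exact Nat.lt_succ_iff.mp (code_lt _)
  have hcount : ∀ a < 15, 3 ≤ wt ((idx.map c).reverse ++ []) a := by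
    intro a ha
    have h1 := hw ⟨a, ha⟩
    simp only at h1
    rw [List.append_nil, wt, List.countP_reverse, List.countP_map]
    rw [hperm.countP_eq]
    have h2 : (Finset.univ.filter (fun i => dot (a + 1) (c i) = true)).card
        = (List.finRange 7).countP ((fun x => dot (a + 1) x) ∘ c) := by
      rw [List.countP_eq_length_filter,
        ← List.toFinset_card_of_nodup ((List.nodup_finRange 7).filter _)]
      congr 1
      ext i
      simp
    rw [← h2]
    exact h1
  have hleaf := go_sound 7 15 [] rfl (by norm_num) go_true (idx.map c) hlen hsorted hlt hcount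
  -- all four searches succeed
  have hok : ∀ j : Fin 4, ok3 (Jm j) ((idx.map c).reverse ++ []) 0 0 0 = true := by
    intro j
    let f : Fin 7 → Fin 3 := fun i => if i ∈ S j 1 then 1 else if i ∈ S j 2 then 2 else 0
    have hf : ∀ κ i, i ∈ S j κ → f i = κ := by
      intro κ i hi
      have hd := fun x y (h : x ≠ y) => Finset.disjoint_left.mp (hdis j x y h)
      rcases fin3 κ with rfl | rfl | rfl
      · have h1 := hd 0 1 (by decide) hi
        have h2 := hd 0 2 (by decide) hi
        simp [f, h1, h2]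
      · simp [f, hi]
      · have h1 := hd 2 1 (by decide) hi
        simp [f, h1, hi]
    let P : List (ℕ × Fin 3) := (idx.map (fun i => (c i, f i))).reverse
    have hP : P.map Prod.fst = (idx.map c).reverse ++ [] := by
      simp [P, List.map_reverse, List.map_map, Function.comp_def]
    rw [← hP]
    have hcov : ∀ κ : Fin 3, accum P κ 0 &&& Jm j = Jm j := by
      intro κ
      apply cover_mask
      intro a ha
      apply accum_testBit
      right
      obtain ⟨i, hi, hi2⟩ := hits (hrec j κ) a ha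
      refine ⟨(c i, f i), ?_, hf κ i hi, ?_⟩
      · rw [List.mem_reverse]
        exact List.mem_map.mpr ⟨i, hperm.mem_iff.mpr (List.mem_finRange i), rfl⟩
      · have := msk_dot ⟨c i, code_lt _⟩ a
        simp only at this
        rw [this]
        exact hi2
    exact ok3_sound _ P 0 0 0 (hcov 0) (hcov 1) (hcov 2)
  have h0 := hok 0
  have h1 := hok 1
  have h2 := hok 2
  have h3 := hok 3
  simp only [Jm, Matrix.cons_val_zero, Matrix.cons_val_one, Matrix.cons_val,
    List.append_nil] at h0 h1 h2 h3 hleaf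
  simp [leaf, h0, h1, h2, h3] at hleaf

/-! ### The code of length 14 -/

theorem recovery_of_sum {F : Type} [Field F] {k n : ℕ} (G : Matrix (Fin k) (Fin n) F) (j : Fin k)
    (I : Finset (Fin n)) (h : ∀ r, ∑ i ∈ I, G r i = if r = j then 1 else 0) :
    IsRecovery G j I := by
  have key : ∀ a : Fin k → F, ∑ i ∈ I, (a ᵥ* G) i = a j := by
    intro a
    simp only [Matrix.vecMul, dotProduct]
    rw [Finset.sum_comm]
    simp only [← Finset.mul_sum, h]
    simp
  intro a b hab
  rw [← key a, ← key b]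
  exact Finset.sum_congr rfl hab

theorem pir_of_sum {F : Type} [Field F] {k n : ℕ} (t : Fin k → ℕ) (ht : ∀ j, 1 ≤ t j)
    (G : Matrix (Fin k) (Fin n) F)
    (h : ∀ j, ∃ S : Fin (t j) → Finset (Fin n), (∀ x y, x ≠ y → Disjoint (S x) (S y)) ∧
      ∀ x r, ∑ i ∈ S x, G r i = if r = j then 1 else 0) : IsPIR t G := by
  have h2 : ∀ j, ∃ S : Fin (t j) → Finset (Fin n),
    (∀ x y, x ≠ y → Disjoint (S x) (S y)) ∧ ∀ x, IsRecovery G j (S x) := fun j => by
    obtain ⟨S, hS, hS2⟩ := h j
    exact ⟨S, hS, fun x => recovery_of_sum G j _ (hS2 x)⟩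
  refine ⟨fun a b hab => ?_, h2⟩
  funext j
  obtain ⟨S, _, hS⟩ := h2 j
  exact hS ⟨0, ht j⟩ a b (fun i _ => congrFun hab i)

def G14 : Matrix (Fin 5) (Fin 14) (ZMod 2) :=
  !![0, 0, 0, 0, 0, 0, 0, 1, 1, 1, 1, 1, 1, 1;
     1, 0, 0, 0, 1, 1, 0, 1, 0, 0, 0, 1, 1, 0;
     0, 1, 0, 0, 1, 0, 1, 0, 1, 0, 0, 1, 0, 1;
     0, 0, 1, 0, 0, 1, 1, 0, 0, 1, 0, 0, 1, 1;
     0, 0, 0, 1, 1, 1, 1, 0, 0, 0, 1, 1, 1, 1]

def S0 : Fin 7 → Finset (Fin 14) :=
  ![{0, 7}, {1, 8}, {2, 9}, {3, 10}, {4, 11}, {5, 12}, {6, 13}]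
def S1 : Fin 5 → Finset (Fin 14) := ![{0}, {1, 3, 4}, {8, 5, 13}, {2, 10, 12}, {9, 11, 6}]
def S2 : Fin 5 → Finset (Fin 14) := ![{1}, {0, 3, 4}, {7, 12, 6}, {2, 10, 13}, {9, 11, 5}]
def S3 : Fin 5 → Finset (Fin 14) := ![{2}, {0, 3, 5}, {7, 11, 6}, {1, 10, 13}, {8, 4, 12}]
def S4 : Fin 5 → Finset (Fin 14) := ![{3}, {0, 1, 4}, {7, 2, 12}, {8, 9, 6}, {11, 5, 13}]

theorem d0 : (∀ x y : Fin 7, x ≠ y → Disjoint (S0 x) (S0 y)) ∧
    ∀ (x : Fin 7) (r : Fin 5), ∑ i ∈ S0 x, G14 r i = if r = 0 then 1 else 0 := by decide +kernel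
theorem d1 : (∀ x y : Fin 5, x ≠ y → Disjoint (S1 x) (S1 y)) ∧
    ∀ (x : Fin 5) (r : Fin 5), ∑ i ∈ S1 x, G14 r i = if r = 1 then 1 else 0 := by decide +kernel
theorem d2 : (∀ x y : Fin 5, x ≠ y → Disjoint (S2 x) (S2 y)) ∧
    ∀ (x : Fin 5) (r : Fin 5), ∑ i ∈ S2 x, G14 r i = if r = 2 then 1 else 0 := by decide +kernel
theorem d3 : (∀ x y : Fin 5, x ≠ y → Disjoint (S3 x) (S3 y)) ∧
    ∀ (x : Fin 5) (r : Fin 5), ∑ i ∈ S3 x, G14 r i = if r = 3 then 1 else 0 := by decide +kernel
theorem d4 : (∀ x y : Fin 5, x ≠ y → Disjoint (S4 x) (S4 y)) ∧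
    ∀ (x : Fin 5) (r : Fin 5), ∑ i ∈ S4 x, G14 r i = if r = 4 then 1 else 0 := by decide +kernel

theorem code14 : IsPIR ![7, 5, 5, 5, 5] G14 := by
  apply pir_of_sum
  · decide
  · intro j
    fin_cases j
    · exact ⟨S0, d0.1, d0.2⟩
    · exact ⟨S1, d1.1, d1.2⟩
    · exact ⟨S2, d2.1, d2.2⟩
    · exact ⟨S3, d3.1, d3.2⟩
    · exact ⟨S4, d4.1, d4.2⟩

/-! ### A `(3,3,3,3)`-PIR code of length 8 and padding by zero columns -/

def G8 : Matrix (Fin 4) (Fin 8) (ZMod 2) :=
  !![1, 0, 0, 0, 1, 0, 0, 1;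
     0, 1, 0, 0, 1, 1, 0, 0;
     0, 0, 1, 0, 0, 1, 1, 0;
     0, 0, 0, 1, 0, 0, 1, 1]

def R8 : Fin 4 → Fin 3 → Finset (Fin 8) :=
  ![![{0}, {1, 4}, {3, 7}], ![{1}, {0, 4}, {2, 5}], ![{2}, {1, 5}, {3, 6}], ![{3}, {2, 6}, {0, 7}]]

theorem d8 : ∀ j : Fin 4, (∀ x y : Fin 3, x ≠ y → Disjoint (R8 j x) (R8 j y)) ∧
    ∀ (x : Fin 3) (r : Fin 4), ∑ i ∈ R8 j x, G8 r i = if r = j then 1 else 0 := by decide +kernel

theorem code8 : IsPIR ![3, 3, 3, 3] G8 := by
  apply pir_of_sum
  · decide
  · intro j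
    fin_cases j
    · exact ⟨R8 0, (d8 0).1, (d8 0).2⟩
    · exact ⟨R8 1, (d8 1).1, (d8 1).2⟩
    · exact ⟨R8 2, (d8 2).1, (d8 2).2⟩
    · exact ⟨R8 3, (d8 3).1, (d8 3).2⟩

theorem pad {F : Type} [Field F] {k n n' : ℕ} (hn : n ≤ n') (t : Fin k → ℕ)
    (h : ∃ G : Matrix (Fin k) (Fin n) F, IsPIR t G) :
    ∃ G : Matrix (Fin k) (Fin n') F, IsPIR t G := by
  obtain ⟨G, hG1, hG2⟩ := h
  let G' : Matrix (Fin k) (Fin n') F := fun r c => if hc : (c : ℕ) < n then G r ⟨c, hc⟩ else 0
  have hv : ∀ (a : Fin k → F) (i : Fin n), (a ᵥ* G') (Fin.castLE hn i) = (a ᵥ* G) i := by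
    intro a i
    simp [Matrix.vecMul, dotProduct, G']
  refine ⟨G', fun a b hab => ?_, fun j => ?_⟩
  · apply hG1
    funext i
    have := congrFun hab (Fin.castLE hn i)
    simp only [hv] at this
    exact this
  · obtain ⟨S, hS, hS2⟩ := hG2 j
    refine ⟨fun x => (S x).map (Fin.castLEEmb hn), fun x y hxy => ?_, fun x a b hab => ?_⟩
    · exact (Finset.disjoint_map _).mpr (hS x y hxy)
    · apply hS2 x a b
      intro i hi
      have := hab (Fin.castLE hn i) (Finset.mem_map.mpr ⟨i, hi, rfl⟩)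
      simpa only [hv] using this

theorem noCode (n : ℕ) (hn : n ≤ 7) :
    ¬ ∃ G : Matrix (Fin 4) (Fin n) (ZMod 2), IsPIR ![3, 3, 3, 3] G := by
  intro h
  obtain ⟨G, hG⟩ := pad hn _ h
  exact noCode7 G hG

/-- **Main result.** There is a binary `(7,5,5,5,5)`-PIR code of length `14`, there is no binary
`(3,3,3,3)`-PIR code of length `7`; hence `N_2(7,5,5,5,5) < 7 + N_2(3,3,3,3)`, and Q1 is false. -/
theorem result :
    (∃ G : Matrix (Fin 5) (Fin 14) (ZMod 2), IsPIR ![7, 5, 5, 5, 5] G) ∧
    (¬ ∃ G : Matrix (Fin 4) (Fin 7) (ZMod 2), IsPIR ![3, 3, 3, 3] G) ∧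
    minLen (ZMod 2) ![7, 5, 5, 5, 5] < 7 + minLen (ZMod 2) ![3, 3, 3, 3] ∧
    ¬ Q1 := by
  refine ⟨⟨G14, code14⟩, noCode 7 le_rfl, ?_, ?_⟩
  · have h1 : minLen (ZMod 2) ![7, 5, 5, 5, 5] ≤ 14 := Nat.sInf_le ⟨G14, code14⟩
    have h2 : minLen (ZMod 2) ![3, 3, 3, 3] ∈
        {n | ∃ G : Matrix (Fin 4) (Fin n) (ZMod 2), IsPIR ![3, 3, 3, 3] G} :=
      Nat.sInf_mem ⟨8, G8, code8⟩
    have h3 : ¬ minLen (ZMod 2) ![3, 3, 3, 3] ≤ 7 := fun h => noCode _ h h2
    omega
  · intro hQ
    have h1 := hQ (ZMod 2) 4 ![7, 5, 5, 5, 5] (by norm_num) (by decide) (by decide) 14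
      ⟨G14, code14⟩
    have h2 : (fun j : Fin 4 => ((![7, 5, 5, 5, 5] : Fin 5 → ℕ) j.succ +
        Fintype.card (ZMod 2) - 1) / Fintype.card (ZMod 2)) = ![3, 3, 3, 3] := by
      funext j
      fin_cases j <;> simp [ZMod.card]
    rw [h2] at h1
    exact noCode _ (by decide) h1

end Pool.Agent.Results.MP_f85992_lc.DoubledHamming
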